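import Pool.Agent.Helper70.PRTProof

/-!
# Packed Ramsey's theorem for pairs does not imply weak Koenig's lemma

We construct an omega-model of `RCA_0` in which `PRT^2_k` holds for every `k` (in particular
`PRT^2_3`) and weak Koenig's lemma fails. The definitions used in the statement are in
`Pool.Agent.Helper70.PRTDefs`.
-/

open Pool.Agent.Helper70.PRT

/-- There is an omega-model of `RCA_0` which satisfies `PRT^2_k` for every `k`, in particular
`PRT^2_3`, and in which weak Koenig's lemma fails. Hence `PRT^2_3` does not imply `WKL` over
`RCA_0`. -/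
theorem Pool.Agent.Results.MP_9d76da_lc.PackedRamseyWKL.result :
    ∃ S : Set (Set ℕ), IsOmegaModelRCA0 S ∧ (∀ k, PRT2 k S) ∧ ¬ WKL S :=
  main
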